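import Mathlib
import Pool.Agent.H24.GN.Calc
import Pool.Agent.H50.GSD.D4

/-!
# GSC, block 0 (helper52): the markers

Small intervals containing a hyperbolic fixed point are expanded to a definite size with distortion
at most `1/10`; the hyperbolic fixed points are dense, so that a locally finite set of them meets
all intervals longer than a given `ε`.
-/

set_option autoImplicit false
open Set Filter Topology MeasureTheory

namespace Pool.Agent.H52.G0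

open Pool.Agent.H52.GS (TT BB)
open Pool.Agent.H50.GS Pool.Agent.H50.GSD Pool.Agent.H24.GN

/-- expansion of small intervals around a hyperbolic fixed point -/
theorem hyp_expand {q : ℝ ≃o ℝ} (hq : Rg q)
    (hl : ∃ C : ℝ, 0 < C ∧ ∀ x y : ℝ, |ld q x - ld q y| ≤ C * |x - y|) {y : ℝ} (hy : q y = y)
    (hd : deriv (q : ℝ → ℝ) y < 1) :
    ∃ η : ℝ, 0 < η ∧ ∀ e : ℝ, 0 < e → e ≤ η → ∀ a b : ℝ, a < b → a ≤ y → y ≤ b → b - a < e →
      ∃ l : ℕ, DB ((q⁻¹) ^ l) a b (1 / 10) ∧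
        e ≤ ((q⁻¹) ^ l : ℝ ≃o ℝ) b - ((q⁻¹) ^ l : ℝ ≃o ℝ) a := by
  obtain ⟨C, hC, hlip⟩ := hl
  obtain ⟨c, hc⟩ : ∃ c : ℝ, c = -ld q y := ⟨_, rfl⟩
  have hc0 : 0 < c := by
    rw [hc]
    have := Real.log_neg (hq.2 y) hd
    unfold ld
    linarith
  obtain ⟨δ, hδ⟩ : ∃ δ : ℝ, δ = c / (2 * C) := ⟨_, rfl⟩
  have hδ0 : 0 < δ := by rw [hδ]; positivity
  have hCδ : C * δ = c / 2 := by rw [hδ]; field_simp
  obtain ⟨θ, hθ⟩ : ∃ θ : ℝ, θ = Real.exp (-(c / 2)) := ⟨_, rfl⟩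
  have hθ0 : 0 < θ := by rw [hθ]; exact Real.exp_pos _
  have hθ1 : θ < 1 := by
    rw [hθ, Real.exp_lt_one_iff]
    linarith
  obtain ⟨m, hm⟩ : ∃ m : ℝ, m = Real.exp (-(3 * c / 2)) := ⟨_, rfl⟩
  have hm0 : 0 < m := by rw [hm]; exact Real.exp_pos _
  have hbox : ∀ x : ℝ, |x - y| ≤ δ → -(3 * c / 2) ≤ ld q x ∧ ld q x ≤ -(c / 2) := by
    intro x hx
    have h1 := hlip x y
    have h2 : C * |x - y| ≤ c / 2 := by
      rw [← hCδ]
      exact mul_le_mul_of_nonneg_left hx hC.le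
    have h3 := abs_le.1 (h1.trans h2)
    constructor <;> linarith [h3.1, h3.2]
  have hA : ∀ u w : ℝ, y - δ ≤ u → u ≤ w → w ≤ y + δ →
      m * (w - u) ≤ q w - q u ∧ q w - q u ≤ θ * (w - u) := by
    intro u w hu huw hw
    rcases huw.eq_or_lt with rfl | hlt
    · simp
    obtain ⟨z, h1, h2, h3⟩ := calc_mvt hq hlt
    have h4 := hbox z (by rw [abs_le]; constructor <;> linarith)
    rw [h3, ← calc_exp_ld hq z]
    have h5 : 0 ≤ w - u := by linarith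
    constructor
    · rw [hm]
      exact mul_le_mul_of_nonneg_right (Real.exp_le_exp.2 h4.1) h5
    · rw [hθ]
      exact mul_le_mul_of_nonneg_right (Real.exp_le_exp.2 h4.2) h5
  obtain ⟨η, hη⟩ : ∃ η : ℝ, η = min (m * δ) ((1 - θ) * m / (10 * C)) := ⟨_, rfl⟩
  have hθ2 : 0 < 1 - θ := by linarith
  refine ⟨η, by rw [hη]; positivity, fun e he heη a b hab hay hyb hbe => ?_⟩
  have heδ : e ≤ m * δ := heη.trans (by rw [hη]; exact min_le_left _ _)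
  have heC : e ≤ (1 - θ) * m / (10 * C) := heη.trans (by rw [hη]; exact min_le_right _ _)
  obtain ⟨A, hAd⟩ : ∃ A : ℕ → ℝ, ∀ j, A j = ((q⁻¹) ^ j : ℝ ≃o ℝ) a := ⟨_, fun _ => rfl⟩
  obtain ⟨B, hBd⟩ : ∃ B : ℕ → ℝ, ∀ j, B j = ((q⁻¹) ^ j : ℝ ≃o ℝ) b := ⟨_, fun _ => rfl⟩
  have hstep : ∀ (j : ℕ) (x : ℝ), ((q⁻¹) ^ (j + 1) : ℝ ≃o ℝ) x = (q⁻¹ : ℝ ≃o ℝ) (((q⁻¹) ^ j : ℝ ≃o ℝ) x) := by
    intro j x
    rw [pow_succ']
    rfl
  have hq1 : ∀ (j : ℕ) (x : ℝ), q (((q⁻¹) ^ (j + 1) : ℝ ≃o ℝ) x) = ((q⁻¹) ^ j : ℝ ≃o ℝ) x := by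
    intro j x
    rw [hstep, RelIso.apply_inv_self]
  have hyj : ∀ j : ℕ, ((q⁻¹) ^ j : ℝ ≃o ℝ) y = y := by
    intro j
    induction j with
    | zero => simp
    | succ j ih =>
      rw [hstep, ih]
      apply q.injective
      rw [RelIso.apply_inv_self, hy]
  have hAy : ∀ j, A j ≤ y := by
    intro j
    rw [hAd]
    have h1 := ((q⁻¹) ^ j : ℝ ≃o ℝ).monotone hay
    rwa [hyj] at h1
  have hyB : ∀ j, y ≤ B j := by
    intro j
    rw [hBd]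
    have h1 := ((q⁻¹) ^ j : ℝ ≃o ℝ).monotone hyb
    rwa [hyj] at h1
  have hqy1 := hA (y - δ) y le_rfl (by linarith) (by linarith)
  have hqy2 := hA y (y + δ) (by linarith) (by linarith) le_rfl
  rw [hy] at hqy1 hqy2
  -- one step
  have hin : ∀ j, B j - A j < e → y - δ ≤ A (j + 1) ∧ B (j + 1) ≤ y + δ := by
    intro j hj
    constructor
    · rw [← q.le_iff_le]
      rw [hAd (j + 1), hq1, ← hAd]
      linarith [hyB j, hqy1.1]
    · rw [← q.le_iff_le]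
      rw [hBd (j + 1), hq1, ← hBd]
      linarith [hAy j, hqy2.1]
  have hL : ∀ j, B j - A j < e → m * (B (j + 1) - A (j + 1)) ≤ B j - A j ∧
      B j - A j ≤ θ * (B (j + 1) - A (j + 1)) := by
    intro j hj
    have h1 := hin j hj
    have h2 := hA (A (j + 1)) (B (j + 1)) h1.1 ((hAy _).trans (hyB _)) h1.2
    rw [hAd (j + 1), hBd (j + 1), hq1, hq1, ← hAd, ← hBd, ← hAd, ← hBd] at h2
    exact h2
  have hA0 : A 0 = a := by rw [hAd]; simp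
  have hB0 : B 0 = b := by rw [hBd]; simp
  have hex : ∃ l : ℕ, e ≤ B l - A l := by
    by_contra hcon
    push Not at hcon
    have h1 : ∀ j, b - a ≤ θ ^ j * (B j - A j) := by
      intro j
      induction j with
      | zero => rw [pow_zero, one_mul, hA0, hB0]
      | succ j ih =>
        have h2 := (hL j (hcon j)).2
        have h3 : θ ^ j * (B j - A j) ≤ θ ^ j * (θ * (B (j + 1) - A (j + 1))) :=
          mul_le_mul_of_nonneg_left h2 (by positivity)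
        calc b - a ≤ θ ^ j * (B j - A j) := ih
          _ ≤ θ ^ j * (θ * (B (j + 1) - A (j + 1))) := h3
          _ = θ ^ (j + 1) * (B (j + 1) - A (j + 1)) := by ring
    have h2 : ∀ j, b - a ≤ θ ^ j * e := fun j =>
      (h1 j).trans (mul_le_mul_of_nonneg_left (hcon j).le (by positivity))
    have h3 : Tendsto (fun j : ℕ => θ ^ j * e) atTop (𝓝 (0 * e)) :=
      (tendsto_pow_atTop_nhds_zero_of_lt_one hθ0.le hθ1).mul_const e
    rw [zero_mul] at h3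
    have h4 := ge_of_tendsto' h3 h2
    linarith
  classical
  obtain ⟨l, hl, hmin⟩ : ∃ l : ℕ, e ≤ B l - A l ∧ ∀ j < l, B j - A j < e :=
    ⟨Nat.find hex, Nat.find_spec hex, fun j hj => not_le.1 (Nat.find_min hex hj)⟩
  refine ⟨l, ?_, by rw [← hAd, ← hBd]; exact hl⟩
  have hDB : ∀ j ≤ l, DB ((q⁻¹) ^ j) a b (C * (B j - A j) / (1 - θ)) := by
    intro j
    induction j with
    | zero =>
      intro _ x _ z _
      rw [pow_zero, ld_one, ld_one, sub_self, abs_zero, hA0, hB0]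
      exact div_nonneg (mul_nonneg hC.le (by linarith)) hθ2.le
    | succ j ih =>
      intro hj x hx z hz
      have h1 := ih (by omega) x hx z hz
      have h2 := hL j (hmin j (by omega))
      have hpj : Rg ((q⁻¹) ^ j) := calc_rg_npow (rg_inv hq) j
      have h3 : ∀ t : ℝ, ld ((q⁻¹) ^ (j + 1)) t =
          -ld q (((q⁻¹) ^ (j + 1) : ℝ ≃o ℝ) t) + ld ((q⁻¹) ^ j) t := by
        intro t
        have h4 : ld ((q⁻¹) ^ (j + 1)) t = ld (q⁻¹ * (q⁻¹) ^ j) t := by rw [pow_succ']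
        rw [h4, ld_mul (rg_inv hq) hpj, ld_inv' hq, hstep]
      rw [h3, h3]
      have h5 := hlip (((q⁻¹) ^ (j + 1) : ℝ ≃o ℝ) x) (((q⁻¹) ^ (j + 1) : ℝ ≃o ℝ) z)
      have h6 : |((q⁻¹) ^ (j + 1) : ℝ ≃o ℝ) x - ((q⁻¹) ^ (j + 1) : ℝ ≃o ℝ) z| ≤
          B (j + 1) - A (j + 1) := by
        have h7 := calc_mem (w := (q⁻¹) ^ (j + 1)) hx
        have h8 := calc_mem (w := (q⁻¹) ^ (j + 1)) hz
        rw [hAd, hBd, abs_le]
        constructor <;> linarith [h7.1, h7.2, h8.1, h8.2]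
      have h7 : C * |((q⁻¹) ^ (j + 1) : ℝ ≃o ℝ) x - ((q⁻¹) ^ (j + 1) : ℝ ≃o ℝ) z| ≤
          C * (B (j + 1) - A (j + 1)) := mul_le_mul_of_nonneg_left h6 hC.le
      have h8 : C * (B j - A j) / (1 - θ) ≤ C * (θ * (B (j + 1) - A (j + 1))) / (1 - θ) := by
        gcongr
        exact h2.2
      have h9 : C * (B (j + 1) - A (j + 1)) + C * (θ * (B (j + 1) - A (j + 1))) / (1 - θ) =
          C * (B (j + 1) - A (j + 1)) / (1 - θ) := by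
        field_simp
        ring
      have h10 : |(-ld q (((q⁻¹) ^ (j + 1) : ℝ ≃o ℝ) x) + ld ((q⁻¹) ^ j) x) -
          (-ld q (((q⁻¹) ^ (j + 1) : ℝ ≃o ℝ) z) + ld ((q⁻¹) ^ j) z)| ≤
          |ld q (((q⁻¹) ^ (j + 1) : ℝ ≃o ℝ) x) - ld q (((q⁻¹) ^ (j + 1) : ℝ ≃o ℝ) z)| +
            |ld ((q⁻¹) ^ j) x - ld ((q⁻¹) ^ j) z| := by
        have : (-ld q (((q⁻¹) ^ (j + 1) : ℝ ≃o ℝ) x) + ld ((q⁻¹) ^ j) x) -
          (-ld q (((q⁻¹) ^ (j + 1) : ℝ ≃o ℝ) z) + ld ((q⁻¹) ^ j) z) =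
          -(ld q (((q⁻¹) ^ (j + 1) : ℝ ≃o ℝ) x) - ld q (((q⁻¹) ^ (j + 1) : ℝ ≃o ℝ) z)) +
            (ld ((q⁻¹) ^ j) x - ld ((q⁻¹) ^ j) z) := by ring
        rw [this]
        refine (abs_add_le _ _).trans ?_
        rw [abs_neg]
      linarith
  refine (hDB l le_rfl).mono ?_
  obtain ⟨l', rfl⟩ : ∃ l', l = l' + 1 := by
    refine Nat.exists_eq_succ_of_ne_zero ?_
    rintro rfl
    rw [hA0, hB0] at hl
    linarith
  have h1 := (hL l' (hmin l' (Nat.lt_succ_self l'))).1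
  have h2 := hmin l' (Nat.lt_succ_self l')
  have h3 : m * (B (l' + 1) - A (l' + 1)) ≤ (1 - θ) * m / (10 * C) := by linarith
  have h4 : B (l' + 1) - A (l' + 1) ≤ (1 - θ) / (10 * C) := by
    have h5 : (1 - θ) * m / (10 * C) = m * ((1 - θ) / (10 * C)) := by ring
    rw [h5] at h3
    exact le_of_mul_le_mul_left h3 hm0
  rw [div_le_iff₀ hθ2]
  calc C * (B (l' + 1) - A (l' + 1)) ≤ C * ((1 - θ) / (10 * C)) :=
        mul_le_mul_of_nonneg_left h4 hC.le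
    _ = 1 / 10 * (1 - θ) := by field_simp

/-- the hyperbolic fixed points of the group are dense -/
theorem hyp_dense {Γ : Subgroup (ℝ ≃o ℝ)} (hrg : ∀ f ∈ Γ, Rg f)
    (hdense : ∀ x a b : ℝ, a < b → ∃ g ∈ Γ, a < g x ∧ g x < b)
    (hyp : ∃ q ∈ Γ, ∃ y : ℝ, q y = y ∧ deriv (q : ℝ → ℝ) y < 1) {a b : ℝ} (hab : a < b) :
    ∃ q ∈ Γ, ∃ y : ℝ, a < y ∧ y < b ∧ q y = y ∧ deriv (q : ℝ → ℝ) y < 1 := by
  obtain ⟨q, hq, y, hy, hd⟩ := hyp
  obtain ⟨g, hg, h1, h2⟩ := hdense y a b hab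
  refine ⟨g * q * g⁻¹, Γ.mul_mem (Γ.mul_mem hg hq) (Γ.inv_mem hg), g y, h1, h2, ?_, ?_⟩
  · rw [RelIso.mul_apply, RelIso.mul_apply, RelIso.inv_apply_self, hy]
  · have hgR := hrg g hg
    have hqR := hrg q hq
    rw [(calc_mul_hd (rg_mul hgR hqR) (rg_inv hgR) (g y)).deriv, RelIso.inv_apply_self,
      (calc_mul_hd hgR hqR y).deriv, hy, (calc_inv_hd hgR (g y)).deriv, RelIso.inv_apply_self]
    have h3 := hgR.2 y
    field_simp
    exact hd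

/-- **Block 0, (b)**: the markers -/
theorem exists_markers {Γ : Subgroup (ℝ ≃o ℝ)} (hT : TT ∈ Γ) (hrg : ∀ f ∈ Γ, Rg f)
    (hlip : ∀ f ∈ Γ, ∃ C : ℝ, 0 < C ∧ ∀ x y : ℝ, |ld f x - ld f y| ≤ C * |x - y|)
    (hdense : ∀ x a b : ℝ, a < b → ∃ g ∈ Γ, a < g x ∧ g x < b)
    (hyp : ∃ q ∈ Γ, ∃ y : ℝ, q y = y ∧ deriv (q : ℝ → ℝ) y < 1) {ε : ℝ} (hε : 0 < ε) :
    ∃ Y : Set ℝ, (∀ y ∈ Y, ∀ k : ℤ, y + k * (2 * Real.pi) ∈ Y) ∧
      (∀ a b : ℝ, ε < b - a → ∃ y ∈ Y, a < y ∧ y < b) ∧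
      ∃ e : ℝ, 0 < e ∧ ∀ y ∈ Y, ∀ a b : ℝ, a < b → a ≤ y → y ≤ b → b - a < e →
        ∃ f ∈ Γ, DB f a b (1 / 10) ∧ e ≤ f b - f a := by
  classical
  have hp : 0 < 2 * Real.pi := Real.two_pi_pos
  obtain ⟨ρ, hρ⟩ : ∃ ρ : ℝ, ρ = ε / 4 := ⟨_, rfl⟩
  have hρ0 : 0 < ρ := by rw [hρ]; linarith
  obtain ⟨M, hM⟩ := exists_nat_gt (2 * Real.pi / ρ)
  have h1 : ∀ i : ℕ, ∃ q ∈ Γ, ∃ y : ℝ, i * ρ < y ∧ y < (i + 1) * ρ ∧ q y = y ∧
      deriv (q : ℝ → ℝ) y < 1 := fun i => hyp_dense hrg hdense hyp (by nlinarith)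
  choose q hq y hy1 hy2 hy3 hy4 using h1
  have h2 : ∀ i : ℕ, ∃ η : ℝ, 0 < η ∧ ∀ e : ℝ, 0 < e → e ≤ η → ∀ a b : ℝ, a < b → a ≤ y i →
      y i ≤ b → b - a < e → ∃ l : ℕ, DB ((q i)⁻¹ ^ l) a b (1 / 10) ∧
        e ≤ ((q i)⁻¹ ^ l : ℝ ≃o ℝ) b - ((q i)⁻¹ ^ l : ℝ ≃o ℝ) a := fun i =>
    hyp_expand (hrg _ (hq i)) (hlip _ (hq i)) (hy3 i) (hy4 i)
  choose η hη0 hη using h2
  obtain ⟨i0, -, hi0⟩ := Finset.exists_min_image (Finset.range (M + 2)) η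
    ⟨0, Finset.mem_range.2 (Nat.succ_pos _)⟩
  refine ⟨{z | ∃ i < M + 2, ∃ k : ℤ, z = y i + k * (2 * Real.pi)}, ?_, ?_, η i0, hη0 i0, ?_⟩
  · rintro z ⟨i, hi, k, rfl⟩ j
    refine ⟨i, hi, k + j, ?_⟩
    push_cast
    ring
  · intro a b hab
    -- reduce `a` to `[0, 2 pi)`
    obtain ⟨c, hc⟩ : ∃ c : ℤ, c = ⌊a / (2 * Real.pi)⌋ := ⟨_, rfl⟩
    obtain ⟨a', ha'⟩ : ∃ a' : ℝ, a' = a - c * (2 * Real.pi) := ⟨_, rfl⟩
    have h1 : (c : ℝ) * (2 * Real.pi) ≤ a := by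
      rw [hc, ← le_div_iff₀ hp]
      exact Int.floor_le _
    have h2 : a < ((c : ℝ) + 1) * (2 * Real.pi) := by
      rw [hc, ← div_lt_iff₀ hp]
      exact Int.lt_floor_add_one _
    have h3 : 0 ≤ a' := by linarith
    have h4 : a' < 2 * Real.pi := by linarith
    obtain ⟨k, hkdef⟩ : ∃ k : ℕ, k = ⌊a' / ρ⌋₊ := ⟨_, rfl⟩
    have h5 : (k : ℝ) * ρ ≤ a' := by
      rw [hkdef, ← le_div_iff₀ hρ0]
      exact Nat.floor_le (div_nonneg h3 hρ0.le)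
    have h6 : a' < ((k : ℝ) + 1) * ρ := by
      rw [hkdef, ← div_lt_iff₀ hρ0]
      exact Nat.lt_floor_add_one _
    have h7 : k + 1 < M + 2 := by
      have h9 : (k : ℝ) ≤ a' / ρ := by rwa [le_div_iff₀ hρ0]
      have h10 : a' / ρ ≤ 2 * Real.pi / ρ := by gcongr
      have h8 : (k : ℝ) < M := by linarith
      have h8' : k < M := by exact_mod_cast h8
      omega
    refine ⟨y (k + 1) + c * (2 * Real.pi), ⟨k + 1, h7, c, rfl⟩, ?_, ?_⟩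
    · have h8 := hy1 (k + 1)
      push_cast at h8
      linarith
    · have h8 := hy2 (k + 1)
      push_cast at h8
      have h9 : ε = 4 * ρ := by rw [hρ]; ring
      nlinarith
  · rintro z ⟨i, hi, k, rfl⟩ a b hab haz hzb hbe
    obtain ⟨l, hl1, hl2⟩ := hη i (η i0) (hη0 i0) (hi0 i (Finset.mem_range.2 hi))
      (a - k * (2 * Real.pi)) (b - k * (2 * Real.pi)) (by linarith) (by linarith) (by linarith)
      (by linarith)
    have hf : ((q i)⁻¹ ^ l : ℝ ≃o ℝ) ∈ Γ := Γ.pow_mem (Γ.inv_mem (hq i)) l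
    have hTa : ∀ x : ℝ, (TT ^ (-k) : ℝ ≃o ℝ) x = x - k * (2 * Real.pi) := by
      intro x
      rw [tt_zpow]
      push_cast
      ring
    refine ⟨(q i)⁻¹ ^ l * TT ^ (-k), Γ.mul_mem hf (Γ.zpow_mem hT _), ?_, ?_⟩
    · intro x hx t ht
      rw [ld_mul (hrg _ hf) (calc_rg_TT _), ld_mul (hrg _ hf) (calc_rg_TT _), ld_TT, ld_TT, hTa, hTa,
        add_zero, add_zero]
      exact hl1 _ ⟨by linarith [hx.1], by linarith [hx.2]⟩ _ ⟨by linarith [ht.1], by linarith [ht.2]⟩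
    · rw [RelIso.mul_apply, RelIso.mul_apply, hTa, hTa]
      exact hl2

end Pool.Agent.H52.G0
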