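import Mathlib
import Pool.Agent.H66.GSC.Def
import Pool.Agent.H24.GN.Calc
import Pool.Agent.H50.GSD.D4

/-!
# GSC, block 0 (helper52): the word of minimal length

The word of minimal length whose image of `(x1, x2)` hits the set `Y` of the markers: its prefixes,
normalised by powers of the translation, have short images and are separated.
-/

set_option autoImplicit false
open Set Filter Topology MeasureTheory

namespace Pool.Agent.H52.G0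

open Pool.Agent.H52.GS (TT BB)
open Pool.Agent.H50.GS Pool.Agent.H50.GSD Pool.Agent.H24.GN
open Pool.Agent.H66.GSC (Path Sm)

/-- the prefixes of a word -/
theorem bb_seq {S : Set (ℝ ≃o ℝ)} {n : ℕ} {u : ℝ ≃o ℝ} (hu : u ∈ BB S n) :
    ∃ s w : ℕ → ℝ ≃o ℝ, (∀ j < n, s j ∈ S) ∧ (∃ k : ℤ, w 0 = TT ^ k) ∧
      (∀ j < n, w (j + 1) = s j * w j) ∧ w n = u ∧ ∀ j ≤ n, w j ∈ BB S j := by
  induction n generalizing u with
  | zero =>
    obtain ⟨k, hk⟩ := hu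
    refine ⟨fun _ => 1, fun _ => u, fun j hj => absurd hj (Nat.not_lt_zero j), ⟨k, hk⟩,
      fun j hj => absurd hj (Nat.not_lt_zero j), rfl, fun j hj => ?_⟩
    rw [Nat.le_zero.1 hj]
    exact ⟨k, hk⟩
  | succ n ih =>
    obtain ⟨s', hs', b, hb, hub⟩ := hu
    obtain ⟨s, w, h1, h2, h3, h4, h5⟩ := ih hb
    refine ⟨fun j => if j < n then s j else s', fun j => if j ≤ n then w j else u, fun j hj => ?_,
      ?_, fun j hj => ?_, ?_, fun j hj => ?_⟩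
    · by_cases h : j < n
      · simp only [h, if_true]
        exact h1 j h
      · simp only [h, if_false]
        exact hs'
    · simpa using h2
    · by_cases h : j < n
      · have h6 : j + 1 ≤ n := h
        have h7 : j ≤ n := h.le
        simp only [h6, h7, h, if_true]
        exact h3 j h
      · have h6 : j = n := by omega
        subst h6
        have h7 : ¬ j + 1 ≤ j := by omega
        simp only [h7, if_false, le_refl, if_true, lt_irrefl]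
        rw [hub, h4]
    · have h7 : ¬ n + 1 ≤ n := by omega
      simp only [h7, if_false]
    · by_cases h : j ≤ n
      · simp only [h, if_true]
        exact h5 j h
      · have h6 : j = n + 1 := by omega
        subst h6
        have h7 : ¬ n + 1 ≤ n := by omega
        simp only [h7, if_false]
        exact ⟨s', hs', b, hb, hub⟩

/-- the tail of a word applied to another word -/
theorem bb_tail {S : Set (ℝ ≃o ℝ)} {n : ℕ} {s w : ℕ → ℝ ≃o ℝ} (hs : ∀ j < n, s j ∈ S)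
    (hw : ∀ j < n, w (j + 1) = s j * w j) {i j : ℕ} {f : ℝ ≃o ℝ} (hf : f ∈ BB S i) (m : ℕ)
    (hm : j + m ≤ n) : w (j + m) * (w j)⁻¹ * f ∈ BB S (i + m) := by
  induction m with
  | zero =>
    have h1 : w (j + 0) * (w j)⁻¹ = 1 := mul_inv_cancel (w j)
    rw [h1, one_mul, Nat.add_zero]
    exact hf
  | succ m ih =>
    refine ⟨s (j + m), hs _ (by omega), _, ih (by omega), ?_⟩
    rw [← Nat.add_assoc, hw _ (by omega)]
    simp only [mul_assoc]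

theorem exists_word {Γ : Subgroup (ℝ ≃o ℝ)} (hT : TT ∈ Γ)
    (hcomm : ∀ f ∈ Γ, ∀ x : ℝ, f (x + 2 * Real.pi) = f x + 2 * Real.pi)
    {S : Set (ℝ ≃o ℝ)} (hS : S ⊆ Γ) (hgen : ∀ f ∈ Γ, ∃ n, f ∈ BB S n)
    {Y : Set ℝ} (hY : ∀ y ∈ Y, ∀ k : ℤ, y + k * (2 * Real.pi) ∈ Y)
    {ε : ℝ} (hYε : ∀ a b : ℝ, ε < b - a → ∃ y ∈ Y, a < y ∧ y < b)
    (hdense : ∀ x a b : ℝ, a < b → ∃ g ∈ Γ, a < g x ∧ g x < b)
    {x1 x2 : ℝ} (hx : x1 < x2) :
    ∃ (N : ℕ) (v σ s : ℕ → ℝ ≃o ℝ) (p : ℝ), x1 < p ∧ p < x2 ∧ v N p ∈ Y ∧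
      (∃ k : ℤ, v 0 = TT ^ k) ∧ (∀ j < N, v (j + 1) = σ j * v j) ∧
      (∀ j < N, s j ∈ S ∧ ∃ k : ℤ, σ j = TT ^ k * s j) ∧ (∀ j ≤ N, v j ∈ Γ) ∧
      (∀ j < N, v j x2 - v j x1 ≤ ε) ∧ (∀ j ≤ N, 0 ≤ v j p ∧ v j p < 2 * Real.pi) ∧
      (∀ i j : ℕ, i < j → j ≤ N → ∀ k : ℤ,
        ¬(v i x1 < v j p + k * (2 * Real.pi) ∧ v j p + k * (2 * Real.pi) < v i x2)) := by
  classical
  have hp : 0 < 2 * Real.pi := Real.two_pi_pos
  have hTk : ∀ k : ℤ, TT ^ k ∈ Γ := fun k => Γ.zpow_mem hT k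
  have hBΓ : ∀ (n : ℕ) (f : ℝ ≃o ℝ), f ∈ BB S n → f ∈ Γ := by
    intro n
    induction n with
    | zero =>
      rintro f ⟨k, rfl⟩
      exact hTk k
    | succ n ih =>
      rintro f ⟨s, hs, b, hb, rfl⟩
      exact Γ.mul_mem (hS hs) (ih b hb)
  have hPer : ∀ f ∈ Γ, Per f := hcomm
  have hex : ∃ n : ℕ, ∃ u ∈ BB S n, ∃ p : ℝ, x1 < p ∧ p < x2 ∧ u p ∈ Y := by
    obtain ⟨y, hy, -⟩ := hYε 0 (ε + 1) (by linarith)
    obtain ⟨g, hg, h1, h2⟩ := hdense y x1 x2 hx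
    obtain ⟨n, hn⟩ := hgen g⁻¹ (Γ.inv_mem hg)
    refine ⟨n, g⁻¹, hn, g y, h1, h2, ?_⟩
    rw [RelIso.inv_apply_self]
    exact hy
  obtain ⟨N, hN⟩ : ∃ N : ℕ, N = Nat.find hex := ⟨_, rfl⟩
  obtain ⟨u, hu, p, hp1, hp2, huY⟩ : ∃ u ∈ BB S N, ∃ p : ℝ, x1 < p ∧ p < x2 ∧ u p ∈ Y := by
    rw [hN]
    exact Nat.find_spec hex
  have hmin : ∀ m : ℕ, m < N → ∀ f ∈ BB S m, ∀ q : ℝ, x1 < q → q < x2 → f q ∉ Y := by
    intro m hm f hf q h1 h2 h3
    rw [hN] at hm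
    exact Nat.find_min hex hm ⟨f, hf, q, h1, h2, h3⟩
  obtain ⟨s, w, hs, ⟨k0, hw0⟩, hw, hwN, hwB⟩ := bb_seq hu
  obtain ⟨κ, hκ⟩ : ∃ κ : ℕ → ℤ, ∀ j, κ j = -⌊w j p / (2 * Real.pi)⌋ := ⟨_, fun _ => rfl⟩
  have hwΓ : ∀ j ≤ N, w j ∈ Γ := fun j hj => hBΓ j _ (hwB j hj)
  have hva : ∀ j (x : ℝ), (TT ^ κ j * w j) x = w j x + κ j * (2 * Real.pi) := by
    intro j x
    rw [RelIso.mul_apply, tt_zpow]
  refine ⟨N, fun j => TT ^ κ j * w j, fun j => TT ^ (κ (j + 1) - κ j) * s j, s, p, hp1, hp2, ?_,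
    ⟨κ 0 + k0, ?_⟩, fun j hj => ?_, fun j hj => ⟨hs j hj, κ (j + 1) - κ j, rfl⟩,
    fun j hj => Γ.mul_mem (hTk _) (hwΓ j hj), fun j hj => ?_, fun j hj => ?_, ?_⟩
  · show (TT ^ κ N * w N) p ∈ Y
    rw [hva, hwN]
    exact hY _ huY _
  · show TT ^ κ 0 * w 0 = _
    rw [hw0, zpow_add]
  · show TT ^ κ (j + 1) * w (j + 1) = TT ^ (κ (j + 1) - κ j) * s j * (TT ^ κ j * w j)
    rw [hw j hj, zpow_sub, mul_assoc, mul_assoc]
    congr 1
    have h1 : s j * TT ^ κ j = TT ^ κ j * s j := per_comm (hPer _ (hS (hs j hj))) _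
    rw [← mul_assoc (s j) (TT ^ κ j) (w j), h1, mul_assoc, inv_mul_cancel_left]
  · show (TT ^ κ j * w j) x2 - (TT ^ κ j * w j) x1 ≤ ε
    rw [hva, hva]
    by_contra hcon
    push Not at hcon
    obtain ⟨y, hy, h1, h2⟩ := hYε (w j x1) (w j x2) (by linarith)
    obtain ⟨q, rfl⟩ := (w j).surjective y
    exact hmin j hj (w j) (hwB j hj.le) q ((w j).lt_iff_lt.1 h1) ((w j).lt_iff_lt.1 h2) hy
  · show 0 ≤ (TT ^ κ j * w j) p ∧ (TT ^ κ j * w j) p < 2 * Real.pi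
    rw [hva, hκ]
    push_cast
    have h1 : (⌊w j p / (2 * Real.pi)⌋ : ℝ) * (2 * Real.pi) ≤ w j p := by
      rw [← le_div_iff₀ hp]
      exact Int.floor_le _
    have h2 : w j p < ((⌊w j p / (2 * Real.pi)⌋ : ℝ) + 1) * (2 * Real.pi) := by
      rw [← div_lt_iff₀ hp]
      exact Int.lt_floor_add_one _
    constructor <;> linarith
  · intro i j hij hjN k
    show ¬((TT ^ κ i * w i) x1 < (TT ^ κ j * w j) p + k * (2 * Real.pi) ∧
      (TT ^ κ j * w j) p + k * (2 * Real.pi) < (TT ^ κ i * w i) x2)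
    rintro ⟨h1, h2⟩
    rw [hva, hva] at h1 h2
    obtain ⟨l, hl⟩ : ∃ l : ℤ, l = κ j + k - κ i := ⟨_, rfl⟩
    have h3 : w i x1 < w j p + l * (2 * Real.pi) := by
      rw [hl]
      push_cast
      linarith
    have h4 : w j p + l * (2 * Real.pi) < w i x2 := by
      rw [hl]
      push_cast
      linarith
    obtain ⟨q, hq⟩ := (w i).surjective (w j p + l * (2 * Real.pi))
    rw [← hq] at h3 h4
    have h5 := bb_tail hs hw (hwB i (hij.le.trans hjN)) (N - j) (j := j) (by omega)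
    have h6 : j + (N - j) = N := by omega
    rw [h6] at h5
    refine hmin (i + (N - j)) (by omega) _ h5 q ((w i).lt_iff_lt.1 h3) ((w i).lt_iff_lt.1 h4) ?_
    have h7 : (w N * (w j)⁻¹ * w i) q = w N p + l * (2 * Real.pi) := by
      rw [RelIso.mul_apply, hq, RelIso.mul_apply]
      have h8 : Per (w j)⁻¹ := hPer _ (Γ.inv_mem (hwΓ j hjN))
      have h9 : Per (w N) := hPer _ (hwΓ N le_rfl)
      rw [per_int h8, RelIso.inv_apply_self, per_int h9]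
    rw [h7, hwN]
    exact hY _ huY _

/-- the generators multiplied by translations -/
theorem sm_TT {K : ℝ} {s : ℝ ≃o ℝ} {a : ℝ → ℝ} (h : Sm K s a) (k : ℤ) : Sm K (TT ^ k * s) a where
  rg := rg_mul (calc_rg_TT k) h.rg
  cont := h.cont
  bd := h.bd
  der := by
    have h1 : ld (TT ^ k * s) = ld s := by
      funext x
      rw [ld_mul (calc_rg_TT k) h.rg, ld_TT, zero_add]
    rw [h1]
    exact h.der

/-- **Block 0, (c)**: the word of minimal length as a `Path` -/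
theorem exists_path {Γ : Subgroup (ℝ ≃o ℝ)} (hT : TT ∈ Γ) (hrg : ∀ f ∈ Γ, Rg f)
    (hcomm : ∀ f ∈ Γ, ∀ x : ℝ, f (x + 2 * Real.pi) = f x + 2 * Real.pi)
    {S : Set (ℝ ≃o ℝ)} (hS : S ⊆ Γ) (hgen : ∀ f ∈ Γ, ∃ n, f ∈ BB S n)
    {K : ℝ} {as : (ℝ ≃o ℝ) → ℝ → ℝ} (has : ∀ s ∈ S, Sm K s (as s))
    {Y : Set ℝ} (hY : ∀ y ∈ Y, ∀ k : ℤ, y + k * (2 * Real.pi) ∈ Y)
    {ε : ℝ} (hε : ε ≤ 1 / (1000 * K)) (hYε : ∀ a b : ℝ, ε < b - a → ∃ y ∈ Y, a < y ∧ y < b)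
    (hdense : ∀ x a b : ℝ, a < b → ∃ g ∈ Γ, a < g x ∧ g x < b)
    {x1 x2 : ℝ} (hx : x1 < x2) :
    ∃ (N : ℕ) (v σ s : ℕ → ℝ ≃o ℝ) (p : ℝ), Path K N v σ (fun j => as (s j)) x1 p x2 ∧
      v N p ∈ Y ∧ (∀ j < N, s j ∈ S) ∧ (∀ j ≤ N, v j ∈ Γ) ∧ (∀ j < N, v j x2 - v j x1 ≤ ε) ∧
      (∀ j ≤ N, 0 ≤ v j p ∧ v j p < 2 * Real.pi) ∧
      (∀ i j : ℕ, i < j → j ≤ N → ∀ k : ℤ,
        ¬(v i x1 < v j p + k * (2 * Real.pi) ∧ v j p + k * (2 * Real.pi) < v i x2)) := by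
  obtain ⟨N, v, σ, s, p, h1, h2, h3, ⟨k0, h4⟩, h5, h6, h7, h8, h9, h10⟩ :=
    exists_word hT hcomm hS hgen hY hYε hdense hx
  refine ⟨N, v, σ, s, p, ?_, h3, fun j hj => (h6 j hj).1, h7, h8, h9, h10⟩
  exact
    { lt1 := h1
      lt2 := h2
      v0 := fun x => by
        rw [h4]
        exact (calc_TT_hd k0 x).deriv
      st := h5
      rg := fun j hj => hrg _ (h7 j hj)
      sm := fun j hj => by
        obtain ⟨hsj, k, hk⟩ := h6 j hj
        rw [hk]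
        exact sm_TT (has _ hsj) k
      small := fun j hj => (h8 j hj).trans hε
      win := fun j hj => ⟨(h9 j hj.le).1, by
        have h11 := (h9 j hj.le).2
        have h12 := Real.pi_lt_d2
        linarith⟩
      sep := fun i j hij hj => by
        have h11 := h10 i j hij hj.le 0
        simpa using h11 }

end Pool.Agent.H52.G0
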