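import Mathlib
import Pool.Agent.H24.GN.FctC

/-!
# GSC, block 0 (helper52): the set `X_1` and two good points

`XO Γ ε r` is the set of the points `x` such that no element of the group with distortion at most
`1/2` on an interval around `x` of length at most `r` has an image of length at least `ε`.
-/

set_option autoImplicit false
open Set Filter Topology MeasureTheory

namespace Pool.Agent.H52.G0

open Pool.Agent.H52.GS (TT BB)
open Pool.Agent.H50.GS Pool.Agent.H50.GSD Pool.Agent.H24.GN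

/-- the points at which the group does not expand intervals of length at most `r` to the size `ε` -/
def XO (Γ : Subgroup (ℝ ≃o ℝ)) (ε r : ℝ) : Set ℝ :=
  {x | ∀ g ∈ Γ, ∀ a b : ℝ, a < x → x < b → b - a ≤ r → DB g a b (1 / 2) → g b - g a < ε}

theorem isClosed_XO (Γ : Subgroup (ℝ ≃o ℝ)) (ε r : ℝ) : IsClosed (XO Γ ε r) := by
  rw [← isOpen_compl_iff, isOpen_iff_forall_mem_open]
  intro x hx
  have hx' : ¬ ∀ g ∈ Γ, ∀ a b : ℝ, a < x → x < b → b - a ≤ r → DB g a b (1 / 2) → g b - g a < ε := hx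
  push Not at hx'
  obtain ⟨g, hg, a, b, hax, hxb, hab, hd, hge⟩ := hx'
  refine ⟨Ioo a b, fun y hy hy' => ?_, isOpen_Ioo, ⟨hax, hxb⟩⟩
  exact absurd (hy' g hg a b hy.1 hy.2 hab hd) (not_lt.2 hge)

theorem XO_anti (Γ : Subgroup (ℝ ≃o ℝ)) (ε : ℝ) {r r' : ℝ} (h : r' ≤ r) :
    XO Γ ε r ⊆ XO Γ ε r' :=
  fun _ hx g hg a b h1 h2 h3 h4 => hx g hg a b h1 h2 (h3.trans h) h4

/-- an invariant set with positive measure in all intervals has a definite measure in all intervals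
of a given length -/
private theorem lower {E : Set ℝ} (hper : ∀ (c : ℤ) (t : ℝ), t + c * (2 * Real.pi) ∈ E ↔ t ∈ E)
    (hE : ∀ x y : ℝ, x < y → volume (E ∩ Ioo x y) ≠ 0) {κ : ℝ} (hκ : 0 < κ) :
    ∃ m : ENNReal, 0 < m ∧ ∀ y : ℝ, m ≤ volume (E ∩ Icc y (y + κ)) := by
  have hp : 0 < 2 * Real.pi := Real.two_pi_pos
  obtain ⟨ρ, hρd⟩ : ∃ ρ : ℝ, ρ = κ / 2 := ⟨_, rfl⟩
  have hρ : 0 < ρ := by rw [hρd]; positivity
  obtain ⟨N, hN⟩ := exists_nat_ge (2 * Real.pi / ρ)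
  have hk : ∀ k : ℕ, 0 < volume (E ∩ Ioo ((k : ℝ) * ρ) (((k : ℝ) + 1) * ρ)) := by
    intro k
    rw [pos_iff_ne_zero]
    exact hE _ _ (by nlinarith)
  obtain ⟨k0, -, hk0⟩ := Finset.exists_min_image (Finset.range (N + 2))
    (fun k : ℕ => volume (E ∩ Ioo ((k : ℝ) * ρ) (((k : ℝ) + 1) * ρ)))
    ⟨0, Finset.mem_range.2 (Nat.succ_pos _)⟩
  refine ⟨_, hk k0, fun y => ?_⟩
  obtain ⟨c, hc⟩ : ∃ c : ℤ, c = ⌊y / (2 * Real.pi)⌋ := ⟨_, rfl⟩
  obtain ⟨y', hy'⟩ : ∃ y' : ℝ, y' = y - c * (2 * Real.pi) := ⟨_, rfl⟩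
  have h1 : (c : ℝ) * (2 * Real.pi) ≤ y := by
    rw [hc, ← le_div_iff₀ hp]
    exact Int.floor_le _
  have h2 : y < ((c : ℝ) + 1) * (2 * Real.pi) := by
    rw [hc, ← div_lt_iff₀ hp]
    exact Int.lt_floor_add_one _
  have h3 : 0 ≤ y' := by linarith
  have h4 : y' < 2 * Real.pi := by linarith
  obtain ⟨k, hkdef⟩ : ∃ k : ℕ, k = ⌊y' / ρ⌋₊ := ⟨_, rfl⟩
  have h5 : (k : ℝ) * ρ ≤ y' := by
    rw [hkdef, ← le_div_iff₀ hρ]
    exact Nat.floor_le (div_nonneg h3 hρ.le)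
  have h6 : y' < ((k : ℝ) + 1) * ρ := by
    rw [hkdef, ← div_lt_iff₀ hρ]
    exact Nat.lt_floor_add_one _
  have h7 : k + 1 ∈ Finset.range (N + 2) := by
    rw [Finset.mem_range]
    have h8 : (k : ℝ) ≤ N := by
      have h9 : (k : ℝ) ≤ y' / ρ := by rwa [le_div_iff₀ hρ]
      have h10 : y' / ρ ≤ 2 * Real.pi / ρ := by gcongr
      linarith
    have h8' : k ≤ N := by exact_mod_cast h8
    omega
  refine (hk0 (k + 1) h7).trans ?_
  have h11 : E ∩ Ioo (((k + 1 : ℕ) : ℝ) * ρ) ((((k + 1 : ℕ) : ℝ) + 1) * ρ) ⊆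
      (fun t : ℝ => t + c * (2 * Real.pi)) ⁻¹' (E ∩ Icc y (y + κ)) := by
    rintro t ⟨ht, ht1, ht2⟩
    push_cast at ht1 ht2
    have hκρ : κ = 2 * ρ := by rw [hρd]; ring
    refine ⟨(hper c t).2 ht, ?_, ?_⟩
    · change y ≤ t + c * (2 * Real.pi)
      linarith
    · change t + c * (2 * Real.pi) ≤ y + κ
      nlinarith
  refine (measure_mono h11).trans ?_
  rw [measure_preimage_add_right]

/-- the measure of the image -/
private theorem image {w : ℝ ≃o ℝ} (hw : Rg w) {E : Set ℝ} (hE : MeasurableSet E)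
    (hinv : ∀ t, w t ∈ E ↔ t ∈ E) {a b t : ℝ} (hab : a < b) (hd : DB w a b t) :
    volume (E ∩ Icc (w a) (w b)) ≤
      ENNReal.ofReal (Real.exp t * ((w b - w a) / (b - a))) * volume (E ∩ Icc a b) := by
  have hsub : E ∩ Icc (w a) (w b) ⊆ (w : ℝ → ℝ) '' (E ∩ Icc a b) := by
    rintro z ⟨hz, hz1, hz2⟩
    obtain ⟨s, rfl⟩ := w.surjective z
    exact ⟨s, ⟨(hinv s).1 hz, w.le_iff_le.1 hz1, w.le_iff_le.1 hz2⟩, rfl⟩
  refine (measure_mono hsub).trans ?_
  have hE' : MeasurableSet (E ∩ Icc a b) := hE.inter measurableSet_Icc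
  have h1 := lintegral_image_eq_lintegral_abs_deriv_mul hE'
    (fun s _ => (hw.1 s).hasDerivAt.hasDerivWithinAt) (w.injective.injOn) (fun _ => 1)
  rw [setLIntegral_one] at h1
  rw [h1, ← setLIntegral_const]
  refine setLIntegral_mono' hE' fun s hs => ?_
  rw [mul_one]
  refine ENNReal.ofReal_le_ofReal ?_
  rw [abs_of_pos (hw.2 s)]
  have h2 := DB.ge hw hd hs.2 (left_mem_Icc.2 hab.le) (right_mem_Icc.2 hab.le) hab.le
  have hba : 0 < b - a := by linarith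
  have h3 : Real.exp t * (Real.exp (-t) * deriv (w : ℝ → ℝ) s * (b - a)) ≤
      Real.exp t * (w b - w a) := mul_le_mul_of_nonneg_left h2 (Real.exp_pos t).le
  have h4 : Real.exp t * (Real.exp (-t) * deriv (w : ℝ → ℝ) s * (b - a)) =
      deriv (w : ℝ → ℝ) s * (b - a) := by
    have : Real.exp t * Real.exp (-t) = 1 := by rw [← Real.exp_add]; simp
    calc Real.exp t * (Real.exp (-t) * deriv (w : ℝ → ℝ) s * (b - a))
        = (Real.exp t * Real.exp (-t)) * (deriv (w : ℝ → ℝ) s * (b - a)) := by ring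
      _ = _ := by rw [this, one_mul]
  rw [h4] at h3
  rw [← mul_div_assoc, le_div_iff₀ hba]
  exact h3

/-- the points which are expanded at all scales -/
def XC (Γ : Subgroup (ℝ ≃o ℝ)) (κ x : ℝ) : Prop :=
  ∀ r : ℝ, 0 < r → ∃ g ∈ Γ, ∃ a b : ℝ, a < x ∧ x < b ∧ b - a ≤ r ∧ DB g a b (1 / 2) ∧
    κ ≤ g b - g a

/-- density points of the complement of an invariant set are not expanded at all scales -/
private theorem half {Γ : Subgroup (ℝ ≃o ℝ)} (hT : TT ∈ Γ) (hrg : ∀ f ∈ Γ, Rg f)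
    (hcomm : ∀ f ∈ Γ, ∀ x : ℝ, f (x + 2 * Real.pi) = f x + 2 * Real.pi)
    {E : Set ℝ} (hE : MeasurableSet E) (hinv : ∀ f ∈ Γ, ∀ x, f x ∈ E ↔ x ∈ E)
    (hne : ∀ x y : ℝ, x < y → volume (E ∩ Ioo x y) ≠ 0) {κ : ℝ} (hκ : 0 < κ) :
    ∀ᵐ x : ℝ, x ∉ E → ¬ XC Γ κ x := by
  have hTpow : ∀ (c : ℤ) (t : ℝ), (TT ^ c : ℝ ≃o ℝ) t = t + c * (2 * Real.pi) := by
    intro c t
    exact tt_zpow c t
  have hper : ∀ (c : ℤ) (t : ℝ), t + c * (2 * Real.pi) ∈ E ↔ t ∈ E := by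
    intro c t
    have := hinv (TT ^ c) (Γ.zpow_mem hT c) t
    rwa [hTpow] at this
  obtain ⟨m, hm0, hm⟩ := lower hper hne hκ
  have hmt : m ≠ ⊤ := by
    have h1 := (hm 0).trans (measure_mono inter_subset_right)
    rw [Real.volume_Icc] at h1
    exact ne_top_of_le_ne_top ENNReal.ofReal_ne_top h1
  obtain ⟨t, ht⟩ : ∃ t : ℝ, t = 1 / 2 := ⟨_, rfl⟩
  obtain ⟨K, hK⟩ : ∃ K : ℝ, K = Real.exp t * (2 * Real.pi) * 2 := ⟨_, rfl⟩
  have hK0 : 0 < K := by rw [hK]; positivity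
  filter_upwards [Besicovitch.ae_tendsto_measure_inter_div_of_measurableSet volume hE] with x hx
  intro hxE hcon
  rw [indicator_of_notMem hxE] at hx
  have hKp : 0 < ENNReal.ofReal K := ENNReal.ofReal_pos.2 hK0
  have hKt : ENNReal.ofReal K ≠ ⊤ := ENNReal.ofReal_ne_top
  have hq : 0 < m / ENNReal.ofReal K := ENNReal.div_pos hm0.ne' hKt
  have hev := hx.eventually (gt_mem_nhds hq)
  rw [eventually_nhdsWithin_iff, Metric.eventually_nhds_iff] at hev
  obtain ⟨δ, hδ, hev⟩ := hev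
  obtain ⟨w, hw, a, b, hax, hxb, hba, hnb, hwb⟩ :=
    hcon (min (δ / 2) (2 * Real.pi)) (lt_min (by linarith) Real.two_pi_pos)
  have hab : a < b := hax.trans hxb
  have hs0 : 0 < b - a := by linarith
  have h2p : b - a ≤ 2 * Real.pi := hba.trans (min_le_right _ _)
  have hd2 : b - a ≤ δ / 2 := hba.trans (min_le_left _ _)
  have hwR := hrg w hw
  rw [← ht] at hnb
  have himg := image hwR hE (hinv w hw) hab hnb
  have hup : w b - w a ≤ 2 * Real.pi := by
    have h1 : w b ≤ w (a + 2 * Real.pi) := w.monotone (by linarith)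
    rw [hcomm w hw] at h1
    linarith
  have h1 : m ≤ volume (E ∩ Icc (w a) (w b)) := by
    refine (hm (w a)).trans (measure_mono (inter_subset_inter_right _ (Icc_subset_Icc_right ?_)))
    linarith
  have h3 := hev (y := b - a) (by rw [Real.dist_eq, sub_zero, abs_of_pos hs0]; linarith) hs0
  have hvol : volume (Metric.closedBall x (b - a)) = ENNReal.ofReal (2 * (b - a)) :=
    Real.volume_closedBall x _
  rw [hvol] at h3
  have hs2 : ENNReal.ofReal (2 * (b - a)) ≠ 0 := (ENNReal.ofReal_pos.2 (by linarith)).ne'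
  have hs3 : ENNReal.ofReal (2 * (b - a)) ≠ ⊤ := ENNReal.ofReal_ne_top
  have h4 : volume (E ∩ Metric.closedBall x (b - a)) <
      m / ENNReal.ofReal K * ENNReal.ofReal (2 * (b - a)) := by
    rwa [ENNReal.div_lt_iff (Or.inl hs2) (Or.inl hs3)] at h3
  have h5 : volume (E ∩ Icc a b) ≤ volume (E ∩ Metric.closedBall x (b - a)) := by
    refine measure_mono (inter_subset_inter_right _ ?_)
    intro z hz
    rw [Metric.mem_closedBall, Real.dist_eq, abs_le]
    constructor <;> linarith [hz.1, hz.2]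
  have h6 : volume (E ∩ Icc (w a) (w b)) ≤ ENNReal.ofReal (K / (2 * (b - a))) *
      volume (E ∩ Icc a b) := by
    refine himg.trans (mul_le_mul_left ?_ _)
    refine ENNReal.ofReal_le_ofReal ?_
    rw [hK]
    have : Real.exp t * (2 * Real.pi) * 2 / (2 * (b - a)) = Real.exp t * ((2 * Real.pi) / (b - a)) := by
      field_simp
    rw [this]
    gcongr
  have hc0 : ENNReal.ofReal (K / (2 * (b - a))) ≠ 0 := (ENNReal.ofReal_pos.2 (by positivity)).ne'
  have hct : ENNReal.ofReal (K / (2 * (b - a))) ≠ ⊤ := ENNReal.ofReal_ne_top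
  have h7 : m < ENNReal.ofReal (K / (2 * (b - a))) *
      (m / ENNReal.ofReal K * ENNReal.ofReal (2 * (b - a))) :=
    (h1.trans h6).trans_lt ((ENNReal.mul_lt_mul_iff_right hc0 hct).2 (h5.trans_lt h4))
  have h8 : ENNReal.ofReal (K / (2 * (b - a))) *
      (m / ENNReal.ofReal K * ENNReal.ofReal (2 * (b - a))) = m := by
    have h9 : ENNReal.ofReal (K / (2 * (b - a))) * ENNReal.ofReal (2 * (b - a)) =
        ENNReal.ofReal K := by
      rw [← ENNReal.ofReal_mul (by positivity)]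
      congr 1
      field_simp
    calc ENNReal.ofReal (K / (2 * (b - a))) * (m / ENNReal.ofReal K * ENNReal.ofReal (2 * (b - a)))
        = (ENNReal.ofReal (K / (2 * (b - a))) * ENNReal.ofReal (2 * (b - a))) *
          (m / ENNReal.ofReal K) := by ring
      _ = m := by
          rw [h9]
          exact ENNReal.mul_div_cancel hKp.ne' hKt
  rw [h8] at h7
  exact lt_irrefl _ h7

/-- the points expanded at all scales are a null set -/
theorem XC_null {Γ : Subgroup (ℝ ≃o ℝ)} (hT : TT ∈ Γ) (hrg : ∀ f ∈ Γ, Rg f)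
    (hcomm : ∀ f ∈ Γ, ∀ x : ℝ, f (x + 2 * Real.pi) = f x + 2 * Real.pi)
    {A : Set ℝ} (hA : MeasurableSet A) (hinv : ∀ f ∈ Γ, ∀ x, f x ∈ A ↔ x ∈ A)
    (hpos : ∀ x y : ℝ, x < y → volume (A ∩ Ioo x y) ≠ 0 ∧ volume (Ioo x y \ A) ≠ 0)
    {κ : ℝ} (hκ : 0 < κ) : volume {x : ℝ | XC Γ κ x} = 0 := by
  have h1 := half hT hrg hcomm hA hinv (fun x y hxy => (hpos x y hxy).1) hκ
  have h2 := half (E := Aᶜ) hT hrg hcomm hA.compl
    (fun f hf x => not_congr (hinv f hf x))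
    (fun x y hxy => by
      rw [inter_comm, ← Set.sdiff_eq]
      exact (hpos x y hxy).2) hκ
  have h3 : ∀ᵐ x : ℝ, ¬ XC Γ κ x := by
    filter_upwards [h1, h2] with x hx1 hx2
    by_cases hx : x ∈ A
    · exact hx2 (fun h => h hx)
    · exact hx1 hx
  rw [ae_iff] at h3
  simpa using h3

/-- a set without pairs of points at small distance is a null set -/
theorem null_of_sep {D : Set ℝ} {δ : ℝ} (hδ : 0 < δ)
    (h : ∀ x ∈ D, ∀ y ∈ D, x < y → δ ≤ y - x) : volume D = 0 := by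
  refine Set.Countable.measure_zero ?_ _
  have hinj : InjOn (fun x : ℝ => ⌊x / δ⌋) D := by
    have key : ∀ x ∈ D, ∀ y ∈ D, ⌊x / δ⌋ = ⌊y / δ⌋ → ¬ x < y := by
      intro x hx y hy hxy hlt
      have h1 := h x hx y hy hlt
      have h2 : (⌊x / δ⌋ : ℝ) ≤ x / δ := Int.floor_le _
      have h3 : y / δ < (⌊y / δ⌋ : ℝ) + 1 := Int.lt_floor_add_one _
      have h4 : (⌊x / δ⌋ : ℝ) = ⌊y / δ⌋ := by rw [hxy]
      have h5 : y / δ - x / δ < 1 := by linarith
      rw [← sub_div, div_lt_one hδ] at h5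
      linarith
    intro x hx y hy hxy
    exact le_antisymm (not_lt.1 (key y hy x hx hxy.symm)) (not_lt.1 (key x hx y hy hxy))
  exact (mapsTo_univ _ _).countable_of_injOn hinj countable_univ

/-- uniform density near `x`: the intervals containing `x` of length at most `r` are filled by `X`
up to the fraction `τ` -/
def Dn (X : Set ℝ) (τ r : ℝ) : Set ℝ :=
  {x | x ∈ X ∧ ∀ a b : ℝ, a < b → a ≤ x → x ≤ b → b - a ≤ r →
    volume (Icc a b \ X) ≤ ENNReal.ofReal (τ * (b - a))}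

/-- almost every point of a closed set is a point of density -/
theorem ae_Dn {X : Set ℝ} (hX : MeasurableSet X) {τ : ℝ} (hτ : 0 < τ) :
    ∀ᵐ x : ℝ, x ∈ X → ∃ n : ℕ, x ∈ Dn X τ (1 / (n + 1)) := by
  filter_upwards [Besicovitch.ae_tendsto_measure_inter_div_of_measurableSet volume hX.compl] with
    x hx
  intro hxX
  rw [indicator_of_notMem (by simpa using hxX)] at hx
  have hq : 0 < ENNReal.ofReal (τ / 2) := ENNReal.ofReal_pos.2 (by linarith)
  have hev := hx.eventually (gt_mem_nhds hq)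
  rw [eventually_nhdsWithin_iff, Metric.eventually_nhds_iff] at hev
  obtain ⟨δ, hδ, hev⟩ := hev
  obtain ⟨n, hn⟩ := exists_nat_one_div_lt hδ
  refine ⟨n, hxX, fun a b hab hax hxb hba => ?_⟩
  have hs0 : 0 < b - a := by linarith
  have h3 := hev (y := b - a) (by rw [Real.dist_eq, sub_zero, abs_of_pos hs0]; linarith) hs0
  rw [Real.volume_closedBall] at h3
  have hs2 : ENNReal.ofReal (2 * (b - a)) ≠ 0 := (ENNReal.ofReal_pos.2 (by linarith)).ne'
  have hs3 : ENNReal.ofReal (2 * (b - a)) ≠ ⊤ := ENNReal.ofReal_ne_top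
  rw [ENNReal.div_lt_iff (Or.inl hs2) (Or.inl hs3), ← ENNReal.ofReal_mul (by linarith)] at h3
  have h4 : τ / 2 * (2 * (b - a)) = τ * (b - a) := by ring
  rw [h4] at h3
  refine le_trans (measure_mono ?_) h3.le
  rintro z ⟨hz, hzX⟩
  refine ⟨hzX, ?_⟩
  rw [Metric.mem_closedBall, Real.dist_eq, abs_le]
  constructor <;> linarith [hz.1, hz.2]

/-- a set of positive measure has pairs of points of uniform density at small distance -/
theorem exists_pair {X : Set ℝ} (hX : MeasurableSet X) (h0 : volume X ≠ 0) {τ : ℝ} (hτ : 0 < τ) :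
    ∃ r : ℝ, 0 < r ∧ ∀ δ : ℝ, 0 < δ → ∃ x ∈ Dn X τ r, ∃ y ∈ Dn X τ r, x < y ∧ y - x < δ := by
  by_contra hcon
  push Not at hcon
  apply h0
  have hnull : ∀ n : ℕ, volume (Dn X τ (1 / (n + 1))) = 0 := by
    intro n
    obtain ⟨δ, hδ, h⟩ := hcon (1 / (n + 1)) (by positivity)
    exact null_of_sep hδ h
  have h1 : volume (⋃ n : ℕ, Dn X τ (1 / (n + 1))) = 0 := measure_iUnion_null hnull
  have h2 : ∀ᵐ x : ℝ, x ∉ ⋃ n : ℕ, Dn X τ (1 / (n + 1)) := measure_eq_zero_iff_ae_notMem.1 h1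
  have h3 : ∀ᵐ x : ℝ, x ∉ X := by
    filter_upwards [h2, ae_Dn hX hτ] with x hx1 hx2 hxX
    exact hx1 (mem_iUnion.2 (hx2 hxX))
  exact measure_eq_zero_iff_ae_notMem.2 h3

/-- the box at a point between two points of uniform density -/
theorem box_density {X : Set ℝ} {r x y p : ℝ} (hx : x ∈ Dn X (1 / 400004) r)
    (hy : y ∈ Dn X (1 / 400004) r) (hxp : x < p) (hpy : p < y) (hr : y - x ≤ r) :
    volume (Ioo (p - min (p - x) (y - p) / 100000) (p + min (p - x) (y - p) / 100000) \ X) ≤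
      ENNReal.ofReal (min (p - x) (y - p) / 100000 / 4) := by
  rcases le_total (p - x) (y - p) with h | h
  · rw [min_eq_left h]
    obtain ⟨t, ht⟩ : ∃ t : ℝ, t = (p - x) / 100000 := ⟨_, rfl⟩
    have ht0 : 0 < t := by rw [ht]; linarith
    rw [← ht]
    have hpx : p = x + 100000 * t := by rw [ht]; ring
    have h1 := hx.2 x (p + t) (by linarith) le_rfl (by linarith) (by linarith)
    refine le_trans (measure_mono ?_) (h1.trans_eq ?_)
    · exact sdiff_subset_sdiff_left fun z hz => ⟨by linarith [hz.1], hz.2.le⟩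
    · congr 1
      rw [hpx]
      ring
  · rw [min_eq_right h]
    obtain ⟨t, ht⟩ : ∃ t : ℝ, t = (y - p) / 100000 := ⟨_, rfl⟩
    have ht0 : 0 < t := by rw [ht]; linarith
    rw [← ht]
    have hpy' : p = y - 100000 * t := by rw [ht]; ring
    have h1 := hy.2 (p - t) y (by linarith) (by linarith) le_rfl (by linarith)
    refine le_trans (measure_mono ?_) (h1.trans_eq ?_)
    · exact sdiff_subset_sdiff_left fun z hz => ⟨hz.1.le, by linarith [hz.2]⟩
    · congr 1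
      rw [hpy']
      ring

/-- for small `r` the set `XO Γ ε r` has positive measure -/
theorem exists_XO {Γ : Subgroup (ℝ ≃o ℝ)} (hT : TT ∈ Γ) (hrg : ∀ f ∈ Γ, Rg f)
    (hcomm : ∀ f ∈ Γ, ∀ x : ℝ, f (x + 2 * Real.pi) = f x + 2 * Real.pi)
    {A : Set ℝ} (hA : MeasurableSet A) (hinv : ∀ f ∈ Γ, ∀ x, f x ∈ A ↔ x ∈ A)
    (hpos : ∀ x y : ℝ, x < y → volume (A ∩ Ioo x y) ≠ 0 ∧ volume (Ioo x y \ A) ≠ 0)
    {ε : ℝ} (hε : 0 < ε) : ∃ r : ℝ, 0 < r ∧ volume (XO Γ ε r) ≠ 0 := by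
  by_contra hcon
  push Not at hcon
  have h1 : volume (⋃ n : ℕ, XO Γ ε (1 / (n + 1))) = 0 :=
    measure_iUnion_null fun n => hcon _ (by positivity)
  have h2 := XC_null hT hrg hcomm hA hinv hpos hε
  have h3 : (univ : Set ℝ) ⊆ (⋃ n : ℕ, XO Γ ε (1 / (n + 1))) ∪ {x : ℝ | XC Γ ε x} := by
    intro x _
    by_cases hx : XC Γ ε x
    · exact Or.inr hx
    · left
      unfold XC at hx
      push Not at hx
      obtain ⟨r, hr, hx⟩ := hx
      obtain ⟨n, hn⟩ := exists_nat_one_div_lt hr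
      exact mem_iUnion.2 ⟨n, fun g hg a b h4 h5 h6 h7 => hx g hg a b h4 h5 (h6.trans hn.le) h7⟩
  have h4 : volume (univ : Set ℝ) = 0 :=
    measure_mono_null h3 (measure_union_null h1 h2)
  rw [Real.volume_univ] at h4
  exact ENNReal.top_ne_zero h4

/-- **Block 0, (a)**: two good points at arbitrarily small distance -/
theorem exists_x1x2 {Γ : Subgroup (ℝ ≃o ℝ)} (hT : TT ∈ Γ) (hrg : ∀ f ∈ Γ, Rg f)
    (hcomm : ∀ f ∈ Γ, ∀ x : ℝ, f (x + 2 * Real.pi) = f x + 2 * Real.pi)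
    {A : Set ℝ} (hA : MeasurableSet A) (hinv : ∀ f ∈ Γ, ∀ x, f x ∈ A ↔ x ∈ A)
    (hpos : ∀ x y : ℝ, x < y → volume (A ∩ Ioo x y) ≠ 0 ∧ volume (Ioo x y \ A) ≠ 0)
    {ε : ℝ} (hε : 0 < ε) : ∃ r : ℝ, 0 < r ∧ ∀ δ : ℝ, 0 < δ → ∃ x1 x2 : ℝ, x1 < x2 ∧
      x2 - x1 < δ ∧ ∀ p : ℝ, x1 < p → p < x2 →
        volume (Ioo (p - min (p - x1) (x2 - p) / 100000) (p + min (p - x1) (x2 - p) / 100000) \
          XO Γ ε r) ≤ ENNReal.ofReal (min (p - x1) (x2 - p) / 100000 / 4) := by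
  obtain ⟨r, hr, h0⟩ := exists_XO hT hrg hcomm hA hinv hpos hε
  obtain ⟨r2, hr2, h⟩ := exists_pair (isClosed_XO Γ ε r).measurableSet h0
    (τ := 1 / 400004) (by norm_num)
  refine ⟨r, hr, fun δ hδ => ?_⟩
  obtain ⟨x, hx, y, hy, hxy, hd⟩ := h (min δ r2) (lt_min hδ hr2)
  exact ⟨x, y, hxy, hd.trans_le (min_le_left _ _), fun p hp1 hp2 =>
    box_density hx hy hp1 hp2 (hd.le.trans (min_le_right _ _))⟩

end Pool.Agent.H52.G0
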