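import Mathlib
import Pool.Agent.H24.GN.FctB
import Pool.Agent.H52.G0.X1
import Pool.Agent.H52.G0.Word
import Pool.Agent.H52.G0.Mark

/-!
# GSC, block 0 (helper52): section 0 in one theorem
-/

set_option autoImplicit false
open Set Filter Topology MeasureTheory

namespace Pool.Agent.H52.G0

open Pool.Agent.H52.GS (TT BB)
open Pool.Agent.H50.GS Pool.Agent.H50.GSD Pool.Agent.H24.GN
open Pool.Agent.H66.GSC (Path Sm)

theorem Sm.mono {K K' : ℝ} {σ : ℝ ≃o ℝ} {a : ℝ → ℝ} (h : Sm K σ a) (hK : K ≤ K') : Sm K' σ a where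
  rg := h.rg
  cont := h.cont
  bd := fun x => (h.bd x).trans hK
  der := h.der

/-- the lifts are of class C² -/
theorem exists_Sm {G : Subgroup (Circle ≃ₜ Circle)} (hC : C2Group G) {f : ℝ ≃o ℝ}
    (hf : f ∈ Lf G) : ∃ K : ℝ, ∃ a : ℝ → ℝ, Sm K f a := by
  have hper : Per f := by
    obtain ⟨g, hg, hl⟩ := hf
    exact isL_per hl
  have hc : C2p f := Lf_c2 hC hf
  have h1 : ContDiff ℝ 1 (deriv (f : ℝ → ℝ)) := by
    have h2 : ContDiff ℝ (1 + 1) (f : ℝ → ℝ) := by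
      have : (1 : WithTop ℕ∞) + 1 = 2 := by norm_num
      rw [this]
      exact hc.1
    exact (contDiff_succ_iff_deriv.1 h2).2.2
  have hL1 : ContDiff ℝ 1 (ld f) := h1.log fun t => (hc.2 t).ne'
  have hLper : Function.Periodic (ld f) (2 * Real.pi) := by
    intro t
    have h3 := deriv_pow_per hper 1 1 t
    rw [pow_one, Int.cast_one, one_mul] at h3
    unfold ld
    rw [h3]
  have hLc : Continuous (deriv (ld f)) := hL1.continuous_deriv (by norm_num)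
  have hLp : Function.Periodic (deriv (ld f)) (2 * Real.pi) := by
    intro t
    have h4 : (fun x => ld f (x + 2 * Real.pi)) = ld f := funext hLper
    have h5 : deriv (fun x => ld f (x + 2 * Real.pi)) t = deriv (ld f) t :=
      congrArg (fun F => deriv F t) h4
    rw [← h5]
    exact (deriv_comp_add_const (f := ld f) (2 * Real.pi) t).symm
  obtain ⟨C, hC⟩ := (hLp.isBounded_of_continuous Real.two_pi_pos.ne' hLc).exists_norm_le
  have hC' : ∀ t, ‖deriv (ld f) t‖ ≤ C := fun t => hC _ ⟨t, rfl⟩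
  exact ⟨C, deriv (ld f),
    { rg := Lf_rg ‹C2Group G› hf
      cont := hLc
      bd := fun x => by
        have := hC' x
        rwa [Real.norm_eq_abs] at this
      der := fun x => ((hL1.differentiable (by norm_num)) x).hasDerivAt }⟩

/-- a common bound for the generators -/
theorem exists_gen {G : Subgroup (Circle ≃ₜ Circle)} (hC : C2Group G) (hfg : G.FG) :
    ∃ K : ℝ, 1 ≤ K ∧ ∃ S : Set (ℝ ≃o ℝ), S.Finite ∧ S ⊆ Lf G ∧ (1 : ℝ ≃o ℝ) ∈ S ∧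
      (∀ s ∈ S, s⁻¹ ∈ S) ∧ (∀ f ∈ Lf G, ∃ n, f ∈ BB S n) ∧
      ∃ as : (ℝ ≃o ℝ) → ℝ → ℝ, ∀ s ∈ S, Sm K s (as s) := by
  classical
  obtain ⟨S, hSf, hSL, h1, hinv, hgen⟩ := Lf_gen hC hfg
  have h2 : ∀ s : ℝ ≃o ℝ, ∃ K : ℝ, ∃ a : ℝ → ℝ, s ∈ S → Sm K s a := by
    intro s
    by_cases hs : s ∈ S
    · obtain ⟨K, a, h⟩ := exists_Sm hC (hSL hs)
      exact ⟨K, a, fun _ => h⟩
    · exact ⟨0, fun _ => 0, fun h => absurd h hs⟩
  choose K0 as h3 using h2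
  obtain ⟨K, hK⟩ := (hSf.image K0).bddAbove
  refine ⟨max K 1, le_max_right _ _, S, hSf, hSL, h1, hinv, hgen, as, fun s hs => ?_⟩
  exact Sm.mono (h3 s hs) ((hK ⟨s, hs, rfl⟩).trans (le_max_left _ _))

/-- **Block 0**: for a finitely generated minimal group of C² diffeomorphisms which is not
ergodic.  `K`, `S`, `as`: generators; `ε`: the bound of the images; `e`, `r`: the size to which no
interval around a point of `XO (Lf G) e r` of length at most `r` is expanded with distortion at most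
`1/2`; `x1`, `x2`: two good points. -/
theorem setup {G : Subgroup (Circle ≃ₜ Circle)} (hC : C2Group G) (hfg : G.FG) (hm : Minimal G)
    (hne : ¬ LebErgodic G) :
    ∃ K : ℝ, 1 ≤ K ∧ ∃ S : Set (ℝ ≃o ℝ), S.Finite ∧ ∃ as : (ℝ ≃o ℝ) → ℝ → ℝ,
      (∀ s ∈ S, Sm K s (as s)) ∧
      ∀ ε : ℝ, 0 < ε → ε ≤ 1 / (1000 * K) → ∃ e : ℝ, 0 < e ∧ ∃ r : ℝ, 0 < r ∧
        ∀ δ : ℝ, 0 < δ → ∃ x1 x2 : ℝ, x1 < x2 ∧ x2 - x1 < δ ∧
          ∃ (N : ℕ) (v σ s : ℕ → ℝ ≃o ℝ) (p : ℝ), Path K N v σ (fun j => as (s j)) x1 p x2 ∧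
            (∀ j < N, s j ∈ S) ∧ (∀ j ≤ N, v j ∈ Lf G) ∧ (∀ j < N, v j x2 - v j x1 ≤ ε) ∧
            (∀ j ≤ N, 0 ≤ v j p ∧ v j p < 2 * Real.pi) ∧
            (∀ i j : ℕ, i < j → j ≤ N → ∀ k : ℤ,
              ¬(v i x1 < v j p + k * (2 * Real.pi) ∧ v j p + k * (2 * Real.pi) < v i x2)) ∧
            volume (Ioo (p - min (p - x1) (x2 - p) / 100000)
              (p + min (p - x1) (x2 - p) / 100000) \ XO (Lf G) e r) ≤
                ENNReal.ofReal (min (p - x1) (x2 - p) / 100000 / 4) ∧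
            ∀ a b : ℝ, a < b → a ≤ v N p → v N p ≤ b → b - a < e →
              ∃ f ∈ Lf G, DB f a b (1 / 10) ∧ e ≤ f b - f a := by
  have hT : TT ∈ Lf G := TT_mem
  have hrg : ∀ f ∈ Lf G, Rg f := fun f hf => Lf_rg hC hf
  have hcomm : ∀ f ∈ Lf G, ∀ x : ℝ, f (x + 2 * Real.pi) = f x + 2 * Real.pi := fun f hf x => by
    obtain ⟨g, hg, hgf⟩ := hf
    exact isL_per hgf x
  have hlip : ∀ f ∈ Lf G, ∃ C : ℝ, 0 < C ∧ ∀ x y : ℝ, |ld f x - ld f y| ≤ C * |x - y| :=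
    fun f hf => Lf_lip hC hf
  have hdense : ∀ x a b : ℝ, a < b → ∃ g ∈ Lf G, a < g x ∧ g x < b :=
    fun x a b hab => Lf_dense hC hm x hab
  have hyp : ∃ q ∈ Lf G, ∃ y : ℝ, q y = y ∧ deriv (q : ℝ → ℝ) y < 1 :=
    exists_hypC hC hm (exists_fix_fg hC hm hfg (Lf_ratC hC hne))
  obtain ⟨A, hA, hinv, hpos⟩ := inv_set hC hm hne
  obtain ⟨K, hK, S, hSf, hSL, -, -, hgen, as, has⟩ := exists_gen hC hfg
  refine ⟨K, hK, S, hSf, as, has, fun ε hε hεK => ?_⟩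
  obtain ⟨Y, hY1, hY2, e, he, hY3⟩ := exists_markers hT hrg hlip hdense hyp hε
  obtain ⟨r, hr, hx⟩ := exists_x1x2 hT hrg hcomm hA hinv hpos he
  refine ⟨e, he, r, hr, fun δ hδ => ?_⟩
  obtain ⟨x1, x2, h12, hd, hvol⟩ := hx δ hδ
  obtain ⟨N, v, σ, s, p, hpath, hNY, hsS, hvΓ, hsm, hwin, hsep⟩ :=
    exists_path hT hrg hcomm hSL hgen has hY1 hεK hY2 hdense h12
  exact ⟨x1, x2, h12, hd, N, v, σ, s, p, hpath, hsS, hvΓ, hsm, hwin, hsep,
    hvol p hpath.lt1 hpath.lt2, fun a b hab ha hb hbe => hY3 _ hNY a b hab ha hb hbe⟩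

end Pool.Agent.H52.G0
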