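import Mathlib
import Pool.Agent.H52.G0.Setup
import Pool.Agent.H51.GSC.End
import Pool.Agent.H51.GSC.PEn

/-!
# GSC (helper52): the final assembly

A finitely generated group of C² diffeomorphisms of the circle (lifts of class C² with nowhere
vanishing derivative) which acts minimally is ergodic with respect to Lebesgue measure.
-/

set_option autoImplicit false
open Set Filter Topology MeasureTheory

namespace Pool.Agent.H52.G0

open Pool.Agent.H50.GS Pool.Agent.H50.GSD Pool.Agent.H24.GN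
open Pool.Agent.H66.GSC

theorem ergodic_c2 {G : Subgroup (Circle ≃ₜ Circle)} (hC : C2Group G) (hfg : G.FG)
    (hm : Minimal G) : LebErgodic G := by
  by_contra hne
  obtain ⟨K, hK, S, hSf, as, has, h⟩ := setup hC hfg hm hne
  have hK0 : 0 < K := by linarith
  obtain ⟨ζ, hζ⟩ : ∃ ζ : ℝ, ζ = 1 / (12 * (100000 * K ^ 2) ^ 2) := ⟨_, rfl⟩
  have hζ0 : 0 < ζ := by rw [hζ]; positivity
  have hζ1 : 12 * ((100000 * K ^ 2) ^ 2 * ζ) ≤ 1 := by
    rw [hζ]
    apply le_of_eq
    field_simp
  obtain ⟨ε0, hε0, hEn⟩ := pathEn_exists hSf (fun s hs => (has s hs).cont) hζ0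
  obtain ⟨e, he, r, hr, h⟩ := h (min ε0 (1 / (1000 * K))) (lt_min hε0 (by positivity))
    (min_le_right _ _)
  obtain ⟨x1, x2, h12, hd, N, v, σ, s, p, hP, hsS, hvΓ, hsm, hwin, hsep, hvol, hmk⟩ := h r hr
  have h1 := hP.lt1
  have h2 := hP.lt2
  obtain ⟨w, hw, hwR, α, β, x, hxX, hαx, hxβ, hβα, hDB, h3, h4⟩ := end_core hK hP hvΓ
    (t0 := min (p - x1) (x2 - p) / 100000)
    (div_pos (lt_min (by linarith) (by linarith)) (by norm_num))
    (by have := min_le_left (p - x1) (x2 - p); linarith)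
    (by have := min_le_right (p - x1) (x2 - p); linarith) hsm
    (hEn _ N v s x1 p x2 (min_le_left _ _) hsS) hζ1 hvol
  have hr4 : β - α ≤ r := by
    have := min_le_left (p - x1) (x2 - p)
    linarith
  have hlt := hxX w hw α β hαx hxβ hr4 (hDB.mono (by norm_num))
  obtain ⟨f, hf, hfD, hfe⟩ := hmk (w α) (w β) (h3.trans h4) h3.le h4.le hlt
  have h5 := hxX (f * w) ((Lf G).mul_mem hf hw) α β hαx hxβ hr4 (by
    intro y hy z hz
    rw [ld_mul (Lf_rg hC hf) hwR, ld_mul (Lf_rg hC hf) hwR]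
    have h6 := hDB y hy z hz
    have h7 := hfD (w y) (calc_mem hy) (w z) (calc_mem hz)
    have h8 : (ld f (w y) + ld w y) - (ld f (w z) + ld w z) =
      (ld f (w y) - ld f (w z)) + (ld w y - ld w z) := by ring
    rw [h8]
    refine (abs_add_le _ _).trans ?_
    linarith)
  rw [RelIso.mul_apply, RelIso.mul_apply] at h5
  linarith

end Pool.Agent.H52.G0
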